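import Mathlib
import Pool.Agent.W2helper47.VK.Ex4
import Pool.Agent.W2helper89.VK.PieceB
import Pool.Agent.W2helper43.VK.PieceD1
import Pool.Agent.W2helper43.VK.PieceD2

/-!
# The face-dual spectral Dehn function of the Heisenberg group is not of order `n⁻²`

The boundary words are `w_n = x²ⁿ yⁿ x⁻ⁿ y⁻²ⁿ x⁻ⁿ yⁿ` (two squares in the `xy`-plane which meet at
a corner and are run around in opposite directions), of length `8n`.

* Lower bound for the area. On any diagram for `w_n` there are real potentials `a`, `b` for the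
  exponents of `x` and `y` (planarity), and the weights `-(b² - b)/2` on the sides labelled `x`,
  `(a² - a)/2 + |a|` on the sides labelled `y` and `a + b` on the sides labelled `z` have a sum of
  absolute value at most `1` around every face, and `2n³ + 2n²` around the outer polygon. So there
  are at least `2n³ + 2n²` faces.
* An explicit diagram with exactly `2n³ + 2n²` faces: `n²` strands `(i,k)` of `n + 2i + 3` faces.
* An explicit height `h` on its faces which is `0` outside, changes by at most `1` from a face to a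
  neighbouring one, is `n - 1` on a positive proportion of the faces, and satisfies
  `∑ 1/(1+h)² ≤ C n log n`. The test function `log (1+h) / log n` gives `μ₁ ≤ C/(n² log n)`.
-/

open Filter Topology BigOperators
open scoped ENNReal

namespace Pool.Agent.Results.MP_442c46_al.LogarithmicDecay

open Pool.Agent.W2helper47.VK

/-- `Λ*(n) ≤ C/(n² log n)` for all `n ≥ 24`; so `n² Λ*(n) → 0`, its lower limit is `0`, and
`Λ*(n) ≍ n⁻²` is false. The bound is attained along explicit minimal diagrams. -/
theorem result :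
    (∃ C : ℝ, 0 < C ∧ ∀ n : ℕ, 24 ≤ n →
      Lam n ≤ ENNReal.ofReal (C / ((n : ℝ) ^ 2 * Real.log n))) ∧
    Tendsto (fun n : ℕ => (n : ℝ≥0∞) ^ 2 * Lam n) atTop (𝓝 0) ∧
    liminf (fun n : ℕ => (n : ℝ≥0∞) ^ 2 * Lam n) atTop = 0 ∧
    (¬ ∃ c C : ℝ, 0 < c ∧ c ≤ C ∧ ∀ᶠ n : ℕ in atTop,
      ENNReal.ofReal (c / (n : ℝ) ^ 2) ≤ Lam n ∧ Lam n ≤ ENNReal.ofReal (C / (n : ℝ) ^ 2)) ∧
    (∃ C : ℝ, 0 < C ∧ ∀ n : ℕ, 3 ≤ n → ∃ D : Diagram (bw n), D.IsMinimal ∧
      Fintype.card D.F = 2 * n ^ 3 + 2 * n ^ 2 ∧
      D.mu ≤ ENNReal.ofReal (C / ((n : ℝ) ^ 2 * Real.log n))) := by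
  have hpot : Pot := pot_of_A PieceA_proof
  have harea : AreaLower := areaLower_of_pot hpot
  have hgood : GoodFamily :=
    goodFamily_of harea explicit_proof EnergyBound_proof SumBound_proof MassBound_proof
  obtain ⟨h1, h2, h3, h4⟩ := final_of hgood
  exact ⟨h1, h2, h3, h4, hgood⟩

end Pool.Agent.Results.MP_442c46_al.LogarithmicDecay
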